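import Pool.Agent.H18.KC.Stmts

/-!
# Board kc, module PO1: first step of the polarisation inequality
-/

set_option autoImplicit false

open Finset

namespace Pool.Agent.H18.KC

/-- isometries preserve inner products -/
theorem PO1_inner {α V : Type} [DecidableEq α] [NormedAddCommGroup V]
    [InnerProductSpace ℝ V] (ρ : Equiv.Perm α →* (V →ₗ[ℝ] V)) (hρ : ∀ σ v, ‖ρ σ v‖ = ‖v‖)
    (σ : Equiv.Perm α) (v w : V) : inner ℝ (ρ σ v) (ρ σ w) = (inner ℝ v w : ℝ) := by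
  have h1 := hρ σ (v + w)
  rw [map_add] at h1
  have h2 : ‖ρ σ v + ρ σ w‖ ^ 2 = ‖v + w‖ ^ 2 := by rw [h1]
  rw [norm_add_sq_real, norm_add_sq_real, hρ, hρ] at h2
  linarith

/-- an element of order two acts as an involution -/
theorem PO1_invol {α V : Type} [DecidableEq α] [NormedAddCommGroup V]
    [InnerProductSpace ℝ V] (ρ : Equiv.Perm α →* (V →ₗ[ℝ] V)) (a b : α) (v : V) :
    ρ (Equiv.swap a b) (ρ (Equiv.swap a b) v) = v := by
  have h : ρ (Equiv.swap a b * Equiv.swap a b) v = v := by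
    rw [Equiv.swap_mul_self, map_one]
    rfl
  rw [map_mul] at h
  exact h

/-- the inner products of a star -/
theorem PO1_gram {α V : Type} [DecidableEq α] [NormedAddCommGroup V]
    [InnerProductSpace ℝ V] (ρ : Equiv.Perm α →* (V →ₗ[ℝ] V)) (hρ : ∀ σ v, ‖ρ σ v‖ = ‖v‖)
    (a : α) (S : Finset ℕ) (y : ℕ → α) (hy : ∀ i ∈ S, ∀ j ∈ S, y i = y j → i = j)
    (ha : ∀ i ∈ S, y i ≠ a) (v : V)
    (hv : ∀ i ∈ S, ∀ j ∈ S, ρ (Equiv.swap (y i) (y j)) v = v) {i j : ℕ} (hi : i ∈ S)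
    (hj : j ∈ S) (hij : i ≠ j) :
    inner ℝ (ρ (Equiv.swap (y j) a) v) v = (inner ℝ (ρ (Equiv.swap (y i) a) v) v : ℝ) ∧
    inner ℝ (ρ (Equiv.swap (y i) a) v) (ρ (Equiv.swap (y j) a) v) =
      (inner ℝ (ρ (Equiv.swap (y i) a) v) v : ℝ) := by
  have hyij : y i ≠ y j := fun h => hij (hy i hi j hj h)
  constructor
  · have e : Equiv.swap (y i) (y j) * Equiv.swap (y i) a =
        Equiv.swap (y j) a * Equiv.swap (y i) (y j) := by
      rw [Equiv.mul_swap_eq_swap_mul, Equiv.swap_apply_left,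
        Equiv.swap_apply_of_ne_of_ne (ha i hi).symm (ha j hj).symm]
    have e2 : ρ (Equiv.swap (y i) (y j)) (ρ (Equiv.swap (y i) a) v) =
        ρ (Equiv.swap (y j) a) v := by
      have h1 : ρ (Equiv.swap (y i) (y j) * Equiv.swap (y i) a) v =
          ρ (Equiv.swap (y j) a * Equiv.swap (y i) (y j)) v := by rw [e]
      rw [map_mul, map_mul] at h1
      have h2 : ρ (Equiv.swap (y i) (y j)) (ρ (Equiv.swap (y i) a) v) =
        ρ (Equiv.swap (y j) a) (ρ (Equiv.swap (y i) (y j)) v) := h1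
      rw [h2, hv i hi j hj]
    rw [← e2]
    conv_lhs => rw [← hv i hi j hj]
    rw [hv i hi j hj]
    have h3 := PO1_inner ρ hρ (Equiv.swap (y i) (y j)) (ρ (Equiv.swap (y i) a) v) v
    rw [hv i hi j hj] at h3
    exact h3
  · have e : Equiv.swap (y i) a * Equiv.swap (y j) a =
        Equiv.swap (y j) (y i) * Equiv.swap (y i) a := by
      rw [Equiv.mul_swap_eq_swap_mul, Equiv.swap_apply_right,
        Equiv.swap_apply_of_ne_of_ne hyij.symm (ha j hj)]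
    have h1 : ρ (Equiv.swap (y i) a * Equiv.swap (y j) a) v =
        ρ (Equiv.swap (y j) (y i) * Equiv.swap (y i) a) v := by rw [e]
    rw [map_mul, map_mul] at h1
    have h2 : ρ (Equiv.swap (y i) a) (ρ (Equiv.swap (y j) a) v) =
      ρ (Equiv.swap (y j) (y i)) (ρ (Equiv.swap (y i) a) v) := h1
    have h3 := PO1_inner ρ hρ (Equiv.swap (y i) a) (ρ (Equiv.swap (y i) a) v)
      (ρ (Equiv.swap (y j) a) v)
    rw [PO1_invol, h2] at h3
    have h4 := PO1_inner ρ hρ (Equiv.swap (y j) (y i)) v (ρ (Equiv.swap (y i) a) v)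
    rw [hv j hj i hi] at h4
    rw [← h3, h4, real_inner_comm]

/-- the norm of the sum over a star -/
theorem PO1_star {α V : Type} [DecidableEq α] [NormedAddCommGroup V]
    [InnerProductSpace ℝ V] (ρ : Equiv.Perm α →* (V →ₗ[ℝ] V)) (hρ : ∀ σ v, ‖ρ σ v‖ = ‖v‖)
    (a : α) (S : Finset ℕ) (y : ℕ → α) (hy : ∀ i ∈ S, ∀ j ∈ S, y i = y j → i = j)
    (ha : ∀ i ∈ S, y i ≠ a) (v : V)
    (hv : ∀ i ∈ S, ∀ j ∈ S, ρ (Equiv.swap (y i) (y j)) v = v) {i0 : ℕ} (hi0 : i0 ∈ S) :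
    ‖v + ∑ i ∈ S, ρ (Equiv.swap (y i) a) v‖ ^ 2 =
      (S.card + 1) * (‖v‖ ^ 2 + S.card * inner ℝ (ρ (Equiv.swap (y i0) a) v) v) := by
  set g : ℝ := inner ℝ (ρ (Equiv.swap (y i0) a) v) v with hg
  have h1 : ∀ i ∈ S, (inner ℝ (ρ (Equiv.swap (y i) a) v) v : ℝ) = g := by
    intro i hi
    rcases eq_or_ne i0 i with h | h
    · rw [← h]
    · exact (PO1_gram ρ hρ a S y hy ha v hv hi0 hi h).1
  have h2 : ∀ i ∈ S, ∀ j ∈ S, (inner ℝ (ρ (Equiv.swap (y i) a) v)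
      (ρ (Equiv.swap (y j) a) v) : ℝ) = g + if i = j then ‖v‖ ^ 2 - g else 0 := by
    intro i hi j hj
    split_ifs with h
    · rw [h, real_inner_self_eq_norm_sq, hρ]
      ring
    · rw [(PO1_gram ρ hρ a S y hy ha v hv hi hj h).2, h1 i hi, add_zero]
  have h3 : (inner ℝ v (∑ i ∈ S, ρ (Equiv.swap (y i) a) v) : ℝ) = S.card * g := by
    rw [inner_sum, Finset.sum_congr rfl fun i hi => (real_inner_comm _ _).trans (h1 i hi),
      Finset.sum_const, nsmul_eq_mul]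
  have h4 : ‖∑ i ∈ S, ρ (Equiv.swap (y i) a) v‖ ^ 2 =
      S.card * (S.card * g + (‖v‖ ^ 2 - g)) := by
    rw [← real_inner_self_eq_norm_sq, sum_inner]
    have h5 : ∀ i ∈ S, (inner ℝ (ρ (Equiv.swap (y i) a) v)
        (∑ j ∈ S, ρ (Equiv.swap (y j) a) v) : ℝ) = S.card * g + (‖v‖ ^ 2 - g) := by
      intro i hi
      rw [inner_sum, Finset.sum_congr rfl fun j hj => h2 i hi j hj, Finset.sum_add_distrib,
        Finset.sum_const, nsmul_eq_mul, Finset.sum_ite_eq, if_pos hi]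
    rw [Finset.sum_congr rfl h5, Finset.sum_const, nsmul_eq_mul]
  rw [norm_add_sq_real, h3, h4]
  ring

theorem po1_thm : PO1Stmt := by
  intro α V _ _ _ ρ x p q v hρ hx hp hq hv1 hv2
  have e1 := PO1_star ρ hρ (x p) (range p) x
    (fun i hi j hj h => hx i j (by have := mem_range.1 hi; omega)
      (by have := mem_range.1 hj; omega) h)
    (fun i hi h => by
      have h1 := mem_range.1 hi
      have h2 := hx i p (by omega) (by omega) h
      omega) v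
    (fun i hi j hj => hv1 i j (Nat.zero_le _) (mem_range.1 hi) (Nat.zero_le _) (mem_range.1 hj))
    (i0 := p - 1) (mem_range.2 (by omega))
  have e2 := PO1_star ρ hρ (x (p - 1)) (Ico p (p + q)) x
    (fun i hi j hj h => hx i j (mem_Ico.1 hi).2 (mem_Ico.1 hj).2 h)
    (fun i hi h => by
      have h1 := mem_Ico.1 hi
      have h2 := hx i (p - 1) (by omega) (by omega) h
      omega) v
    (fun i hi j hj => hv2 i j (mem_Ico.1 hi).1 (mem_Ico.1 hi).2 (mem_Ico.1 hj).1 (mem_Ico.1 hj).2)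
    (i0 := p) (mem_Ico.2 (by omega))
  rw [card_range] at e1
  rw [Nat.card_Ico, Nat.add_sub_cancel_left, Equiv.swap_comm (x p) (x (p - 1))] at e2
  have e3 : ‖Up ρ x p v‖ ^ 2 = (p + 1) * (‖v‖ ^ 2 +
      p * inner ℝ (ρ (Equiv.swap (x (p - 1)) (x p)) v) v) := e1
  set g : ℝ := inner ℝ (ρ (Equiv.swap (x (p - 1)) (x p)) v) v with hg
  have h0 : 0 ≤ ((q:ℝ) + 1) * (‖v‖ ^ 2 + q * g) := by
    rw [← e2]
    positivity
  have h1 : 0 ≤ ‖v‖ ^ 2 + q * g := by
    have hq1 : (0:ℝ) < (q:ℝ) + 1 := by positivity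
    exact nonneg_of_mul_nonneg_right h0 hq1
  rw [e3]
  have hp0 : (0:ℝ) ≤ p := Nat.cast_nonneg p
  nlinarith [mul_nonneg (mul_nonneg hp0 (by positivity : (0:ℝ) ≤ (p:ℝ) + 1)) h1]

end Pool.Agent.H18.KC
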