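import Pool.Agent.H18.KC.Stmts

/-!
# Board kc, module WRL: the exact relation between the tensors `P_m h`
-/

set_option autoImplicit false

open Finset

namespace Pool.Agent.H18.KC

theorem WRL_hs_cast {ι E : Type} [Fintype ι] [NormedAddCommGroup E] [InnerProductSpace ℝ E]
    {t Q : ℝ} (D : Dat ι E t Q) (h0 : E) {n n' : ℕ} (h : n = n') (f : Fin n → ι) :
    D.hs h0 n f = D.hs h0 n' (fun j => f (Fin.cast h.symm j)) := by
  subst h
  rfl

/-- removing an index is, up to a permutation, moving the last index to its place -/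
theorem WRL_perm {ι E : Type} [Fintype ι] [NormedAddCommGroup E] [InnerProductSpace ℝ E]
    {t Q : ℝ} (D : Dat ι E t Q) (m : ℕ) (s : Fin (m + 1)) (a : Fin (m + 1) → ι) (h : E) :
    D.P m (s.removeNth a) h =
      D.P m (fun j => a (Equiv.swap s (Fin.last m) (Fin.castSucc j))) h := by
  have hne : ∀ j : Fin m, Equiv.swap s (Fin.last m) (s.succAbove j) ≠ Fin.last m := by
    intro j hj
    have h1 : s.succAbove j = s := by
      have h2 := congrArg (Equiv.swap s (Fin.last m)) hj
      rw [Equiv.swap_apply_self, Equiv.swap_apply_right] at h2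
      exact h2
    exact Fin.succAbove_ne s j h1
  let f : Fin m → Fin m := fun j => (Equiv.swap s (Fin.last m) (s.succAbove j)).castPred (hne j)
  have hf : ∀ j, Fin.castSucc (f j) = Equiv.swap s (Fin.last m) (s.succAbove j) := fun j =>
    Fin.castSucc_castPred _ _
  have hinj : Function.Injective f := by
    intro i j hij
    have h1 := congrArg Fin.castSucc hij
    rw [hf, hf] at h1
    exact Fin.succAbove_right_injective ((Equiv.swap s (Fin.last m)).injective h1)
  let σ : Equiv.Perm (Fin m) := Equiv.ofBijective f (Finite.injective_iff_bijective.1 hinj)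
  have h1 := D.symP m σ (fun j => a (Equiv.swap s (Fin.last m) (Fin.castSucc j))) h
  rw [← h1]
  congr 1
  congr 1
  funext j
  change a (s.succAbove j) = a (Equiv.swap s (Fin.last m) (Fin.castSucc (f j)))
  rw [hf, Equiv.swap_apply_self]

theorem wrl_thm : WRLStmt := by
  intro ι E _ _ _ t Q D h0 hh0 k m hm1 hmk
  obtain ⟨m', rfl⟩ : ∃ m', m = m' + 1 := ⟨m - 1, by omega⟩
  set m : ℕ := m' + 1 with hm
  -- the sequence is orthogonal to `e`
  have horth : ∀ (n : ℕ) (I : Fin n → ι), inner ℝ D.e (D.hs h0 n I) = 0 := by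
    intro n I
    cases n with
    | zero => exact hh0
    | succ n => exact D.inner_e_A _ _
  ext I
  have hle : m + 1 ≤ k + 1 := by omega
  have hle' : m ≤ k + 1 := by omega
  have hW : ∀ J : Fin (k + 1) → ι, D.W h0 (k + 1) m J =
      D.P m (fun i => J (Fin.castLE hle' i)) (D.A (J ⟨m, by omega⟩)
        (D.hs h0 (k - m) (fun j => J ⟨m + 1 + j, by omega⟩))) := by
    intro J
    have h1 : D.W h0 (k + 1) m J = D.P m (fun i => J (Fin.castLE hle' i))
      (D.hs h0 (k + 1 - m) (fun j => J ⟨m + j, by omega⟩)) := by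
      change (if hm : m ≤ k + 1 then _ else _) = _
      rw [dif_pos hle']
    rw [h1, WRL_hs_cast D h0 (show k + 1 - m = (k - m) + 1 by omega)]
    congr 1
    change D.A _ _ = _
    congr 1
    congr 1
    funext j
    change J _ = J _
    congr 1
    apply Fin.ext
    simp
    omega
  have hW1 : D.W h0 (k + 1) (m + 1) I =
      D.P (m + 1) (fun i => I (Fin.castLE hle i))
        (D.hs h0 (k - m) (fun j => I ⟨m + 1 + j, by omega⟩)) := by
    have h1 : D.W h0 (k + 1) (m + 1) I = D.P (m + 1) (fun i => I (Fin.castLE hle i))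
      (D.hs h0 (k + 1 - (m + 1)) (fun j => I ⟨m + 1 + j, by omega⟩)) := by
      change (if hm : m + 1 ≤ k + 1 then _ else _) = _
      rw [dif_pos hle]
    rw [h1, WRL_hs_cast D h0 (show k + 1 - (m + 1) = k - m by omega)]
    rfl
  set a : Fin (m + 1) → ι := fun i => I (Fin.castLE hle i) with ha
  set h : E := D.hs h0 (k - m) (fun j => I ⟨m + 1 + j, by omega⟩) with hh
  have hR : (Up (rho ι (k + 1)) (pos k) m (D.W h0 (k + 1) m)) I = D.W h0 (k + 1) m I +
      ∑ i ∈ range m, D.W h0 (k + 1) m (I ∘ Equiv.swap (pos k i) (pos k m)) := by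
    unfold Up
    rw [PiLp.add_apply]
    congr 1
    have h1 : ∀ (S : Finset ℕ) (F : ℕ → EuclideanSpace ℝ (Fin (k + 1) → ι)),
        (∑ i ∈ S, F i) I = ∑ i ∈ S, F i I := by
      intro S F
      induction S using Finset.induction_on with
      | empty => simp
      | insert b S hb ih => rw [Finset.sum_insert hb, Finset.sum_insert hb, PiLp.add_apply, ih]
    rw [h1]
    rfl
  have hL : D.P (m + 1) a h = ∑ s : Fin (m + 1), D.P m (s.removeNth a) (D.A (a s) h) :=
    D.Prel m' a h (horth _ _)
  rw [hW1, hL, hR, Fin.sum_univ_castSucc, add_comm]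
  have hposm : pos k m = Fin.castLE hle (Fin.last m) := by
    apply Fin.ext
    simp [pos, Fin.ofNat, Nat.mod_eq_of_lt (show m < k + 1 by omega)]
  congr 1
  · rw [hW, WRL_perm]
    congr 1
    · congr 1
      funext j
      rw [Equiv.swap_self]
      rfl
  · rw [Finset.sum_range]
    refine Finset.sum_congr rfl fun i _ => ?_
    have hposi : pos k i = Fin.castLE hle (Fin.castSucc i) := by
      apply Fin.ext
      simp [pos, Fin.ofNat, Nat.mod_eq_of_lt (show (i:ℕ) < k + 1 by omega)]
    rw [hW, WRL_perm, hposi, hposm]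
    have hinj : Function.Injective (Fin.castLE hle : Fin (m + 1) → Fin (k + 1)) :=
      Fin.castLE_injective hle
    have e1 : (fun j : Fin m => a (Equiv.swap (Fin.castSucc i) (Fin.last m) (Fin.castSucc j))) =
        fun j : Fin m => (I ∘ Equiv.swap (Fin.castLE hle (Fin.castSucc i))
          (Fin.castLE hle (Fin.last m))) (Fin.castLE hle' j) := by
      funext j
      change I _ = I _
      congr 1
      have h2 := hinj.swap_apply (Fin.castSucc i) (Fin.last m) (Fin.castSucc j)
      rw [← h2]
      rfl
    have e2 : (I ∘ Equiv.swap (Fin.castLE hle (Fin.castSucc i)) (Fin.castLE hle (Fin.last m)))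
        ⟨m, by omega⟩ = a (Fin.castSucc i) := by
      change I _ = I _
      congr 1
      have h2 : (⟨m, by omega⟩ : Fin (k + 1)) = Fin.castLE hle (Fin.last m) := Fin.ext rfl
      rw [h2, Equiv.swap_apply_right]
    have e3 : (fun j : Fin (k - m) => (I ∘ Equiv.swap (Fin.castLE hle (Fin.castSucc i))
        (Fin.castLE hle (Fin.last m))) ⟨m + 1 + j, by omega⟩) =
        fun j : Fin (k - m) => I ⟨m + 1 + j, by omega⟩ := by
      funext j
      change I _ = I _
      congr 1
      apply Equiv.swap_apply_of_ne_of_ne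
      · intro h3
        have h4 := congrArg Fin.val h3
        have h5 := i.2
        simp at h4
        omega
      · intro h3
        have h4 := congrArg Fin.val h3
        simp at h4
        omega
    rw [e1, e2, e3]

end Pool.Agent.H18.KC
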